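import Mathlib
import Pool.Agent.D0H86.PW.Stm
import Pool.Agent.Y949.DK.SV

set_option autoImplicit false

/-!
# Project PW, module N2: prime pairs in short intervals, upper bound
-/

namespace Pool.Agent.D0H33.PW

open Finset Filter Pool.Agent.Y851.DK Pool.Agent.D0H86.PW
open Pool.Agent.Helper923.HMertens (mertens_ratio)

lemma sg_nonneg (m : ℕ) : 0 ≤ sg m := sum_nonneg fun _ _ => by positivity

/-- the sum of `1 / p` over the prime factors of `d ≤ 2 ^ (u + 1)` -/
lemma sg_le : ∃ C : ℝ, 0 ≤ C ∧ ∀ u d : ℕ, 3 ≤ u → 1 ≤ d → d ≤ 2 ^ (u + 1) →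
    sg d ≤ Real.log (Real.log u) + C := by
  obtain ⟨C1, hC0, hC1⟩ := mertens_ratio
  have hl2 : (0 : ℝ) < Real.log 2 := Real.log_pos (by norm_num)
  refine ⟨1 / 2 + C1 / Real.log 2 + |Real.log (Real.log 2)| + 2, by positivity, ?_⟩
  intro u d hu hd hdu
  have hu0 : (0 : ℝ) < u := by exact_mod_cast (by omega : 0 < u)
  have hlu : 0 < Real.log u := Real.log_pos (by exact_mod_cast (by omega : 1 < u))
  have h1 := hC1 2 u le_rfl (by omega)
  have h2 : ∑ p ∈ (Finset.Ioc 2 u).filter Nat.Prime, (1 : ℝ) / p ≤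
      Real.log (Real.log u) - Real.log (Real.log 2) + C1 / Real.log 2 := by
    have h3 := (abs_le.1 h1).2
    push_cast at h3
    rw [Real.log_div hlu.ne' hl2.ne'] at h3
    linarith
  have hsub : d.primeFactors.filter (fun p => p ≤ u) ⊆
      insert 2 ((Finset.Ioc 2 u).filter Nat.Prime) := by
    intro p hp
    rw [mem_filter] at hp
    have hpp := Nat.prime_of_mem_primeFactors hp.1
    rw [mem_insert, mem_filter, mem_Ioc]
    rcases eq_or_ne p 2 with h | h
    · exact Or.inl h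
    · exact Or.inr ⟨⟨lt_of_le_of_ne hpp.two_le (Ne.symm h), hp.2⟩, hpp⟩
  have h4 : ∑ p ∈ d.primeFactors.filter (fun p => p ≤ u), (1 : ℝ) / p ≤
      1 / 2 + ∑ p ∈ (Finset.Ioc 2 u).filter Nat.Prime, (1 : ℝ) / p := by
    refine (sum_le_sum_of_subset_of_nonneg hsub (fun _ _ _ => by positivity)).trans ?_
    rw [sum_insert (by simp)]
    norm_num
  have hcard : d.primeFactors.card ≤ u + 1 := by
    have h5 : 2 ^ d.primeFactors.card ≤ d := by
      calc 2 ^ d.primeFactors.card = ∏ _p ∈ d.primeFactors, 2 := by rw [prod_const]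
        _ ≤ ∏ p ∈ d.primeFactors, p :=
            prod_le_prod' fun p hp => (Nat.prime_of_mem_primeFactors hp).two_le
        _ ≤ d := Nat.le_of_dvd hd (Nat.prod_primeFactors_dvd d)
    have h6 : 2 ^ d.primeFactors.card ≤ 2 ^ (u + 1) := h5.trans hdu
    exact (Nat.pow_le_pow_iff_right (by norm_num)).1 h6
  have h7 : ∑ p ∈ d.primeFactors.filter (fun p => ¬ p ≤ u), (1 : ℝ) / p ≤ 2 := by
    have h8 : ∀ p ∈ d.primeFactors.filter (fun p => ¬ p ≤ u), (1 : ℝ) / p ≤ 1 / u := by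
      intro p hp
      rw [mem_filter, not_le] at hp
      exact one_div_le_one_div_of_le hu0 (by exact_mod_cast hp.2.le)
    have h9 : ((d.primeFactors.filter (fun p => ¬ p ≤ u)).card : ℝ) ≤ u + 1 := by
      exact_mod_cast (card_filter_le _ _).trans hcard
    refine (sum_le_card_nsmul _ _ _ h8).trans ?_
    rw [nsmul_eq_mul, mul_one_div, div_le_iff₀ hu0]
    have : (3 : ℝ) ≤ u := by exact_mod_cast hu
    linarith
  have h10 : sg d = ∑ p ∈ d.primeFactors.filter (fun p => p ≤ u), (1 : ℝ) / p +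
      ∑ p ∈ d.primeFactors.filter (fun p => ¬ p ≤ u), (1 : ℝ) / p := by
    unfold sg
    rw [sum_filter_add_sum_filter_not]
  have h11 := neg_abs_le (Real.log (Real.log 2))
  rw [h10]
  linarith

/-- the pairs, in terms of the sieve -/
lemma pair_sieve : ∃ C : ℝ, 1 ≤ C ∧ ∃ Y₀ : ℝ, ∀ u H s s' : ℕ, Y₀ ≤ H → s ≠ s' →
    (((hit u H {s}) ∩ (hit u H {s'})).card : ℝ) ≤
      C * Real.exp (C * (2 * sg ((s : ℤ) - s').natAbs)) * (H / Real.log H ^ 2) := by
  obtain ⟨C, hC, hh⟩ := Pool.Agent.Y949.DK.t_SV 2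
  obtain ⟨Y₀, hY₀⟩ := eventually_atTop.1 hh
  refine ⟨C, hC, max Y₀ 2, fun u H s s' hH hs => ?_⟩
  have hH1 : Y₀ ≤ H := (le_max_left _ _).trans hH
  set F : Finset (ℤ × ℤ) := {(1, 2 ^ u - 1 + (s : ℤ)), (1, 2 ^ u - 1 + (s' : ℤ))} with hF
  have hss : (s : ℤ) ≠ s' := by exact_mod_cast hs
  have hne : ((1 : ℤ), (2 : ℤ) ^ u - 1 + (s : ℤ)) ≠ (1, 2 ^ u - 1 + (s' : ℤ)) := by
    intro h0
    have := congrArg Prod.snd h0
    simp only at this
    apply hss
    linarith
  have h3 := hY₀ H hH1 F (by rw [hF, card_pair hne]) (by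
      intro f hf
      rw [hF, mem_insert, mem_singleton] at hf
      rcases hf with rfl | rfl <;> simp) (by
      intro f hf g hg hfg
      rw [hF, mem_insert, mem_singleton] at hf hg
      rcases hf with rfl | rfl <;> rcases hg with rfl | rfl
      · exact absurd rfl hfg
      · simp only
        intro h
        apply hss
        linarith
      · simp only
        intro h
        apply hss
        linarith
      · exact absurd rfl hfg)
  rw [Nat.floor_natCast] at h3
  have hH2 : (2 : ℝ) ≤ H := (le_max_right _ _).trans hH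
  have hlog : 0 < Real.log H := Real.log_pos (by linarith)
  have hY : 0 < (H : ℝ) / Real.log H ^ 2 := by positivity
  have hs1 : sg 1 = 0 := by unfold sg; simp
  have hs0 : sg 0 = 0 := by unfold sg; simp
  have hsum : ∑ f ∈ F, sg f.1.natAbs + ∑ f ∈ F, ∑ g ∈ F,
      sg (f.1 * g.2 - g.1 * f.2).natAbs = 2 * sg ((s : ℤ) - s').natAbs := by
    rw [hF, sum_pair hne, sum_pair hne, sum_pair hne, sum_pair hne]
    simp only [Int.natAbs_one, one_mul, sub_self, Int.natAbs_zero, hs1, hs0]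
    have e1 : ((2 : ℤ) ^ u - 1 + (s' : ℤ) - (2 ^ u - 1 + (s : ℤ))).natAbs =
        ((s : ℤ) - s').natAbs := by
      rw [← Int.natAbs_neg]
      congr 1
      ring
    have e2 : ((2 : ℤ) ^ u - 1 + (s : ℤ) - (2 ^ u - 1 + (s' : ℤ))).natAbs =
        ((s : ℤ) - s').natAbs := by
      congr 1
      ring
    rw [e1, e2]
    ring
  rw [hsum] at h3
  refine le_trans ?_ h3
  rw [Nat.cast_le]
  apply card_le_card_of_injOn (fun T => T - 2 ^ u + 1)
  · intro T hT
    rw [Finset.mem_coe, mem_inter] at hT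
    unfold hit at hT
    rw [mem_filter, mem_filter, mem_Ico] at hT
    obtain ⟨⟨⟨h1, h2⟩, s1, hs1, hp1⟩, ⟨_, s2, hs2, hp2⟩⟩ := hT
    rw [mem_singleton] at hs1 hs2
    subst hs1 hs2
    rw [Finset.mem_coe, mem_filter, mem_Icc]
    have a1 : 1 ≤ T - 2 ^ u + 1 := by omega
    have a2 : T - 2 ^ u + 1 ≤ H := by omega
    refine ⟨⟨a1, a2⟩, fun f hf => ?_⟩
    rw [hF, mem_insert, mem_singleton] at hf
    have hc : (((T - 2 ^ u + 1 : ℕ) : ℤ)) = (T : ℤ) - 2 ^ u + 1 := by
      push_cast [Nat.cast_sub h1]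
      ring
    rcases hf with rfl | rfl
    · have : ((1 : ℤ) * ((T - 2 ^ u + 1 : ℕ) : ℤ) + (2 ^ u - 1 + (s1 : ℤ))).toNat = T + s1 := by
        rw [hc]
        have e : (1 : ℤ) * ((T : ℤ) - 2 ^ u + 1) + (2 ^ u - 1 + (s1 : ℤ)) = ((T + s1 : ℕ) : ℤ) := by
          push_cast
          ring
        rw [e, Int.toNat_natCast]
      simp only [this]
      exact hp1
    · have : ((1 : ℤ) * ((T - 2 ^ u + 1 : ℕ) : ℤ) + (2 ^ u - 1 + (s2 : ℤ))).toNat = T + s2 := by
        rw [hc]
        have e : (1 : ℤ) * ((T : ℤ) - 2 ^ u + 1) + (2 ^ u - 1 + (s2 : ℤ)) = ((T + s2 : ℕ) : ℤ) := by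
          push_cast
          ring
        rw [e, Int.toNat_natCast]
      simp only [this]
      exact hp2
  · intro T hT T' hT' h
    rw [Finset.mem_coe, mem_inter] at hT hT'
    unfold hit at hT hT'
    rw [mem_filter, mem_Ico] at hT hT'
    obtain ⟨⟨⟨h1, _⟩, _⟩, _⟩ := hT
    obtain ⟨⟨⟨h2, _⟩, _⟩, _⟩ := hT'
    simp only at h
    omega

theorem t_N2 : S_N2 := by
  intro δ hδ
  obtain ⟨C1, hC1, Y₀, hS⟩ := pair_sieve
  obtain ⟨C2, hC2, hsg⟩ := sg_le
  have hl2 : (0 : ℝ) < Real.log 2 := Real.log_pos (by norm_num)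
  set A : ℝ := C1 * Real.exp (2 * C1 * C2) / (δ * Real.log 2) ^ 2 with hA
  have hA0 : 0 ≤ A := by positivity
  set C : ℕ := ⌈max (2 * C1) A⌉₊ with hCdef
  have hCa : 2 * C1 ≤ C := (le_max_left _ _).trans (Nat.le_ceil _)
  have hCb : A ≤ C := (le_max_right _ _).trans (Nat.le_ceil _)
  have hev : ∀ᶠ u : ℕ in atTop, max Y₀ 2 ≤ (2 : ℝ) ^ (δ * u) := by
    have t1 : Tendsto (fun u : ℕ => δ * (u : ℝ)) atTop atTop :=
      tendsto_natCast_atTop_atTop.const_mul_atTop hδ
    have t2 : Tendsto (fun x : ℝ => (2 : ℝ) ^ x) atTop atTop :=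
      tendsto_rpow_atTop_of_base_gt_one 2 (by norm_num)
    exact (t2.comp t1).eventually_ge_atTop _
  obtain ⟨u₁, hu₁⟩ := eventually_atTop.1 hev
  refine ⟨C, max u₁ 3, fun u H s s' hu hH hH' hs hs' hne => ?_⟩
  have hu3 : 3 ≤ u := (le_max_right _ _).trans hu
  have huu : u₁ ≤ u := (le_max_left _ _).trans hu
  have hu0 : (0 : ℝ) < u := by exact_mod_cast (by omega : 0 < u)
  have h1 := (hu₁ u huu).trans hH
  have hHY : Y₀ ≤ H := (le_max_left _ _).trans h1
  have hH2 : (2 : ℝ) ≤ H := (le_max_right _ _).trans h1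
  have hH0 : (0 : ℝ) < H := by linarith
  have hlogH : δ * u * Real.log 2 ≤ Real.log H := by
    have := Real.log_le_log (by positivity) hH
    rwa [Real.log_rpow (by norm_num)] at this
  have hlu : 1 ≤ Real.log u := by
    have h3 : (3 : ℝ) ≤ u := by exact_mod_cast hu3
    have h4 : Real.exp 1 ≤ u := by
      have := Real.exp_one_lt_d9
      linarith
    have := Real.log_le_log (Real.exp_pos 1) h4
    rwa [Real.log_exp] at this
  have hd1 : 1 ≤ ((s : ℤ) - s').natAbs := by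
    have : ((s : ℤ) - s').natAbs ≠ 0 := by
      rw [Int.natAbs_ne_zero, sub_ne_zero]
      exact_mod_cast hne
    omega
  have hd2 : ((s : ℤ) - s').natAbs ≤ 2 ^ (u + 1) := by omega
  have h5 := hsg u _ hu3 hd1 hd2
  have h6 := hS u H s s' hHY hne
  refine h6.trans ?_
  have h7 : Real.exp (C1 * (2 * sg ((s : ℤ) - s').natAbs)) ≤
      Real.exp (2 * C1 * C2) * Real.log u ^ C := by
    calc Real.exp (C1 * (2 * sg ((s : ℤ) - s').natAbs))
        ≤ Real.exp (C1 * (2 * (Real.log (Real.log u) + C2))) := by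
          apply Real.exp_le_exp.2
          apply mul_le_mul_of_nonneg_left _ (by linarith)
          linarith
      _ = Real.exp (2 * C1 * C2) * Real.log u ^ (2 * C1) := by
          rw [Real.rpow_def_of_pos (by linarith), ← Real.exp_add]
          congr 1
          ring
      _ ≤ Real.exp (2 * C1 * C2) * Real.log u ^ C := by
          apply mul_le_mul_of_nonneg_left _ (Real.exp_pos _).le
          rw [← Real.rpow_natCast]
          exact Real.rpow_le_rpow_of_exponent_le hlu hCa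
  have h8 : (H : ℝ) / Real.log H ^ 2 ≤ H / (δ * u * Real.log 2) ^ 2 := by
    apply div_le_div_of_nonneg_left hH0.le (by positivity)
    exact pow_le_pow_left₀ (by positivity) hlogH 2
  have h9 : (0 : ℝ) ≤ Real.log u ^ C := by positivity
  calc C1 * Real.exp (C1 * (2 * sg ((s : ℤ) - s').natAbs)) * (H / Real.log H ^ 2)
      ≤ C1 * (Real.exp (2 * C1 * C2) * Real.log u ^ C) * (H / (δ * u * Real.log 2) ^ 2) := by
        apply mul_le_mul _ h8 (by positivity) (by positivity)
        exact mul_le_mul_of_nonneg_left h7 (by linarith)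
    _ = A * Real.log u ^ C * H / (u : ℝ) ^ 2 := by
        rw [hA]
        field_simp
    _ ≤ C * Real.log u ^ C * H / (u : ℝ) ^ 2 := by
        gcongr

end Pool.Agent.D0H33.PW
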